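import Pool.Agent.H91.NV.LTargets
import Pool.Agent.H57.NV.FDN

/-!
# (FDN) of part L: the density of the enlarged family
-/

set_option autoImplicit false

open MeasureTheory Set Filter NumberField NumberField.InfinitePlace
open scoped Real

namespace Pool.Agent.H57.NVK

open Pool.Agent.H65.CM4 Pool.Agent.H61.NVK Pool.Agent.H89.NV Pool.Agent.H91.NV

variable (k : Type) [Field k] [NumberField k] [IsTotallyReal k]

theorem pf_FDN : Pool.Agent.H91.NV.T_FDN k := by
  classical
  intro f R hf _
  obtain ⟨hq, hgm, hper, hcard⟩ := Pool.Agent.H57.NV.pf_FDN k f R hf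
  refine ⟨hper, ?_⟩
  have hnm : nm (qN R) ≠ 0 := by
    unfold nm
    rw [Ne, Nat.cast_eq_zero, Ideal.absNorm_eq_zero_iff]
    exact hq
  rw [div_eq_iff hnm, mul_comm (dR R), ← hcard, ← Finset.sum_filter, Finset.sum_const, nsmul_eq_mul,
    mul_one, Finset.filter_filter]

end Pool.Agent.H57.NVK
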