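import Pool.Agent.H91.NV.LTargets
import Pool.Agent.H57.NV.RsLib

/-!
# (MIP): means over systems of representatives, products
-/

set_option autoImplicit false

open MeasureTheory Set Filter NumberField NumberField.InfinitePlace
open scoped Real

namespace Pool.Agent.H57.NVK

open Pool.Agent.H65.CM4 Pool.Agent.H61.NVK Pool.Agent.H89.NV Pool.Agent.H91.NV
open Pool.Agent.H57.NV (rp rp_sub rp_eq rp_mem Rs_inj mem_Rs)

variable (k : Type) [Field k] [NumberField k] [IsTotallyReal k]

theorem pf_MIP (_hRSB : T_RSB k) (_hMIA : T_MIA k) : T_MIP k := by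
  classical
  intro M A B g h hM hA hB hAB hg hh
  have hABM : A * B * M ≠ ⊥ := mul_ne_zero (mul_ne_zero hA hB) hM
  have hAM : A * M ≠ ⊥ := mul_ne_zero hA hM
  have hBM : B * M ≠ ⊥ := mul_ne_zero hB hM
  have l1 : A * B * M ≤ A * M := Ideal.mul_mono_left Ideal.mul_le_left
  have l2 : A * B * M ≤ B * M := Ideal.mul_mono_left Ideal.mul_le_right
  have l3 : A * M ≤ M := Ideal.mul_le_right
  have l4 : B * M ≤ M := Ideal.mul_le_right
  obtain ⟨a, ha, b, hb, hab⟩ := Ideal.isCoprime_iff_exists.1 hAB
  have hinf : ∀ x, x ∈ A * M → x ∈ B * M → x ∈ A * B * M := by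
    intro x h1 h2
    have e : x = a * x + b * x := by rw [← add_mul, hab, one_mul]
    rw [e]
    refine Ideal.add_mem _ ?_ ?_
    · rw [mul_assoc]
      exact Ideal.mul_mem_mul ha h2
    · rw [mul_comm A B, mul_assoc]
      exact Ideal.mul_mem_mul hb h1
  -- representatives
  have hmem : ∀ {I : Ideal (𝓞 k)} {x : 𝓞 k}, I ≤ M → x ∈ M → rp I x ∈ M := by
    intro I x hI hx
    have := M.add_mem (hI (rp_sub I x)) hx
    rwa [sub_add_cancel] at this
  have hgr : ∀ {x y : 𝓞 k}, y ∈ M → x - y ∈ A * M → g x = g y := by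
    intro x y hy hxy
    have := hg y hy (x - y) hxy
    rwa [add_sub_cancel] at this
  have hhr : ∀ {x y : 𝓞 k}, y ∈ M → x - y ∈ B * M → h x = h y := by
    intro x y hy hxy
    have := hh y hy (x - y) hxy
    rwa [add_sub_cancel] at this
  have key : ∑ x ∈ (Rs (A * B * M)).filter (fun x => x ∈ M), g x * h x =
      (∑ x ∈ (Rs (A * M)).filter (fun x => x ∈ M), g x) *
        ∑ x ∈ (Rs (B * M)).filter (fun x => x ∈ M), h x := by
    rw [Finset.sum_mul_sum, ← Finset.sum_product']
    refine Finset.sum_bij (fun x _ => (rp (A * M) x, rp (B * M) x)) ?_ ?_ ?_ ?_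
    · intro x hx
      rw [Finset.mem_filter] at hx
      rw [Finset.mem_product, Finset.mem_filter, Finset.mem_filter]
      exact ⟨⟨rp_mem hAM x, hmem l3 hx.2⟩, ⟨rp_mem hBM x, hmem l4 hx.2⟩⟩
    · intro x hx y hy he
      rw [Finset.mem_filter] at hx hy
      rw [Prod.mk.injEq] at he
      refine Rs_inj hABM hx.1 hy.1 (hinf _ ?_ ?_)
      · have h1 := rp_sub (A * M) x
        have h2 := rp_sub (A * M) y
        rw [he.1] at h1
        have := Ideal.sub_mem _ h2 h1
        have e : rp (A * M) y - y - (rp (A * M) y - x) = x - y := by ring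
        rwa [e] at this
      · have h1 := rp_sub (B * M) x
        have h2 := rp_sub (B * M) y
        rw [he.2] at h1
        have := Ideal.sub_mem _ h2 h1
        have e : rp (B * M) y - y - (rp (B * M) y - x) = x - y := by ring
        rwa [e] at this
    · rintro ⟨y, z⟩ hyz
      rw [Finset.mem_product, Finset.mem_filter, Finset.mem_filter] at hyz
      obtain ⟨⟨hy, hy1⟩, ⟨hz, hz1⟩⟩ := hyz
      simp only at hy hy1 hz hz1
      have hA1 : b * y + a * z - y ∈ A * M := by
        have e : b * y + a * z - y = a * (z - y) := by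
          have : b = 1 - a := by rw [← hab]; ring
          rw [this]
          ring
        rw [e]
        exact Ideal.mul_mem_mul ha (M.sub_mem hz1 hy1)
      have hB1 : b * y + a * z - z ∈ B * M := by
        have e : b * y + a * z - z = b * (y - z) := by
          have : a = 1 - b := by rw [← hab]; ring
          rw [this]
          ring
        rw [e]
        exact Ideal.mul_mem_mul hb (M.sub_mem hy1 hz1)
      have hx : rp (A * B * M) (b * y + a * z) - (b * y + a * z) ∈ A * B * M := rp_sub _ _
      have hA2 : rp (A * B * M) (b * y + a * z) - y ∈ A * M := by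
        have := Ideal.add_mem _ (l1 hx) hA1
        have e : rp (A * B * M) (b * y + a * z) - (b * y + a * z) + (b * y + a * z - y) =
          rp (A * B * M) (b * y + a * z) - y := by ring
        rwa [e] at this
      have hB2 : rp (A * B * M) (b * y + a * z) - z ∈ B * M := by
        have := Ideal.add_mem _ (l2 hx) hB1
        have e : rp (A * B * M) (b * y + a * z) - (b * y + a * z) + (b * y + a * z - z) =
          rp (A * B * M) (b * y + a * z) - z := by ring
        rwa [e] at this
      refine ⟨rp (A * B * M) (b * y + a * z), ?_, ?_⟩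
      · rw [Finset.mem_filter]
        exact ⟨rp_mem hABM _, hmem (l1.trans l3) (M.add_mem (M.mul_mem_left _ hy1)
          (M.mul_mem_left _ hz1))⟩
      · rw [Prod.mk.injEq]
        refine ⟨?_, ?_⟩
        · rw [rp_eq hA2]
          exact (mem_Rs hAM y).1 hy
        · rw [rp_eq hB2]
          exact (mem_Rs hBM z).1 hz
    · intro x hx
      rw [Finset.mem_filter] at hx
      simp only
      rw [hgr hx.2 (rp_sub (A * M) x), hhr hx.2 (rp_sub (B * M) x)]
  unfold mI
  rw [key]
  have hnm : nm (A * B) = nm A * nm B := by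
    unfold nm
    rw [map_mul, Nat.cast_mul]
  rw [hnm]
  simp only [one_div, mul_inv]
  ring

end Pool.Agent.H57.NVK
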